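import Pool.Agent.H62.HaarFlow

set_option autoImplicit false
open MeasureTheory

namespace Pool.Agent.Results.MP_ee7e89_lc.BallSplit

/-- `N` is Haar null in the group `G` of self-maps (composition, compact-open topology) -/
def HaarNull {X : Type} [TopologicalSpace X] (G : Set C(X, X)) (N : Set G) : Prop :=
  ∃ B : Set G, N ⊆ B ∧ @MeasurableSet G (borel G) B ∧
    ∃ μ : @Measure G (borel G), IsProbabilityMeasure μ ∧ ∀ g h : G,
      μ {x : G | ∃ b ∈ B, x.1 = g.1.comp (b.1.comp h.1)} = 0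

/-- `G` is partitioned into a meagre set and a Haar null set -/
def Splits {X : Type} [TopologicalSpace X] (G : Set C(X, X)) : Prop :=
  ∃ M N : Set G, M ∪ N = Set.univ ∧ Disjoint M N ∧ IsMeagre M ∧ HaarNull G N

/-- the closed unit ball of `ℝⁿ` -/
def D (n : ℕ) : Set (EuclideanSpace ℝ (Fin n)) := Metric.closedBall 0 1

/-- orientation-preserving homeomorphisms of the ball: homeomorphisms homotopic to the identity through
maps sending the boundary sphere to itself -/
def HBall (n : ℕ) : Set C(D n, D n) :=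
  {f | Function.Bijective f ∧
    f.HomotopicWith (ContinuousMap.id (D n)) fun g => ∀ x : D n, ‖x.1‖ = 1 → ‖(g x).1‖ = 1}

theorem result (n : ℕ) (hn : 2 ≤ n) : Splits (HBall n) := by
  obtain ⟨k, rfl⟩ : ∃ k, n = k + 2 := ⟨n - 2, by omega⟩
  let : MeasurableSpace (HBall (k + 2)) := borel _
  have : BorelSpace (HBall (k + 2)) := ⟨rfl⟩
  obtain ⟨B, h1, h2, h3⟩ := Pool.Agent.H62.HaarFlow.rot (D (k + 2)) (isCompact_closedBall _ _)
    (fun x hx y h => by rw [D, mem_closedBall_zero_iff] at *; exact h.trans_le hx)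
    ⟨EuclideanSpace.single 0 1, by simp [D], by simp⟩ (fun g => ∀ x : D (k + 2), ‖x.1‖ = 1 → ‖(g x).1‖ = 1)
      (fun f hf x hx => (hf x).trans hx) (HBall (k + 2)) rfl
  exact ⟨Bᶜ, B, Set.compl_union_self B, disjoint_compl_left, h1, B, subset_rfl, h2, h3⟩

end Pool.Agent.Results.MP_ee7e89_lc.BallSplit
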